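import Pool.Agent.H24.Leg4

set_option autoImplicit false

open Polynomial

namespace Pool.Agent.Results.MP_d17a30_nt.Full

theorem result :
    ∀ (p : ℕ) [Fact (Nat.Prime p)], p % 4 = 3 →
      Matrix.det (Matrix.of (fun j k : Fin ((p - 1) / 2) =>
        (X : ℤ[X]) + C (legendreSym p ((((j : ℕ) : ℤ) + 1) - (((k : ℕ) : ℤ) + 1))))) = X := by
  intro p hp h3
  obtain ⟨n, rfl, hn⟩ : ∃ n, p = 2 * n + 1 ∧ Odd n :=
    ⟨(p - 1) / 2, by omega, ⟨(p - 3) / 4, by omega⟩⟩
  have e : (2 * n + 1 - 1) / 2 = n := by omega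
  have e2 : Matrix.det (Matrix.of (fun j k : Fin ((2 * n + 1 - 1) / 2) =>
      (X : ℤ[X]) + C (legendreSym (2 * n + 1) ((((j : ℕ) : ℤ) + 1) - (((k : ℕ) : ℤ) + 1)))))
      = Matrix.det (Matrix.of (fun j k : Fin n =>
        (X : ℤ[X]) + C (Pool.Agent.H24.Leg.Tm n n j k))) := by
    rw [← Matrix.det_submatrix_equiv_self (finCongr e)]
    congr 1
    ext j k : 2
    simp [Pool.Agent.H24.Leg.Tm]
  rw [e2]
  by_cases h1 : n = 1
  · subst h1
    simp [Pool.Agent.H24.Leg.Tm]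
  have h2 : 1 < n := by obtain ⟨k, rfl⟩ := hn; omega
  apply Polynomial.eq_of_infinite_eval_eq
  refine Set.infinite_of_injective_forall_mem (f := fun k : ℕ => (k : ℤ) ^ 2) ?_ ?_
  · intro a b h
    have : a ^ 2 = b ^ 2 := by simp only at h; exact_mod_cast h
    exact Nat.pow_left_injective two_ne_zero this
  · intro k
    have h := Pool.Agent.H24.Leg.det_ones hn h2 k
    rw [Set.mem_ofPred_eq, eval_X, ← coe_evalRingHom, RingHom.map_det]
    refine Eq.trans ?_ h
    congr 1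
    ext j l
    simp [Matrix.vecMulVec_apply, sq, add_comm]

end Pool.Agent.Results.MP_d17a30_nt.Full
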